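import Pool.Agent.QT.Base
import Pool.Agent.PI.ZW

/-! # [QT] the set of bad primes of the Weil restrictions `Res_{ℚ(i)/ℚ} E_D`, `E_D : y² = x³ - D x` -/

set_option autoImplicit false

open NumberField IsDedekindDomain
open scoped Classical

namespace QT

open PI

theorem zw_Δ {R : Type*} [CommRing R] (d : R) : (QT.W d).Δ = 2 ^ 6 * d ^ 3 := by
  unfold QT.W
  simp only [WeierstrassCurve.Δ, WeierstrassCurve.b₂, WeierstrassCurve.b₄, WeierstrassCurve.b₆,
    WeierstrassCurve.b₈]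
  ring

theorem zw_map {R S : Type*} [CommRing R] [CommRing S] (f : R →+* S) (d : R) :
    (QT.W d).map f = QT.W (f d) := by
  unfold QT.W
  rw [WeierstrassCurve.map]
  simp only [map_zero, map_neg]

/-- the set of bad primes -/
theorem badSet_W (d : Gi) (hd : d ≠ 0) :
    WR.IsBadSet (QT.W ((eG d : 𝓞 KI) : KI)) (2 * d.norm.natAbs).primeFactors := by
  have hN0 : d.norm.natAbs ≠ 0 := by
    rw [Int.natAbs_ne_zero]
    exact (GaussianInt.norm_pos.2 hd).ne'
  refine ⟨fun p hp => Nat.prime_of_mem_primeFactors hp, ?_⟩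
  intro p hp hpS v hv
  have hv' : (p : 𝓞 KI) ∈ v.asIdeal := hv
  have hndvd : ¬ p ∣ 2 * d.norm.natAbs := by
    intro h1
    exact hpS (Nat.mem_primeFactors.2 ⟨hp, h1, mul_ne_zero (by norm_num) hN0⟩)
  have hp2 : p ≠ 2 := by
    rintro rfl
    exact hndvd (dvd_mul_right _ _)
  have hpN : ¬ (p : ℤ) ∣ d.norm := fun h => hndvd (Dvd.dvd.mul_left (Int.natCast_dvd.1 h) _)
  have hpD : ¬ (p : ℤ) ∣ discr KI := by
    intro h
    have h1 : (discr KI).natAbs = 4 := by
      have h2 := abs_discr_KI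
      have h3 : |discr KI| = 4 := by exact_mod_cast h2
      rw [← Int.natCast_natAbs] at h3
      exact_mod_cast h3
    have h2 : p ∣ 4 := by
      rw [← h1]
      exact Int.natCast_dvd.1 h
    have h3 : p ∣ 2 := by
      have : p ∣ 2 ^ 2 := by norm_num; exact h2
      exact hp.dvd_of_dvd_pow this
    exact hp2 ((Nat.prime_dvd_prime_iff_eq hp Nat.prime_two).1 h3)
  have hcop : ∀ n : ℤ, ¬ (p : ℤ) ∣ n → (n : 𝓞 KI) ∉ v.asIdeal := by
    intro n hn hnv
    obtain ⟨a, b, hab⟩ := (Int.isCoprime_iff_gcd_eq_one.2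
      ((Int.isCoprime_iff_gcd_eq_one.1 (((Nat.prime_iff_prime_int.1 hp).irreducible.coprime_iff_not_dvd).2 hn))) :
      IsCoprime (p : ℤ) n)
    apply v.isPrime.ne_top
    rw [Ideal.eq_top_iff_one]
    have h5 : ((a : 𝓞 KI)) * p + b * (n : 𝓞 KI) = 1 := by
      exact_mod_cast congrArg (Int.cast : ℤ → 𝓞 KI) hab
    rw [← h5]
    exact add_mem (Ideal.mul_mem_left _ _ hv') (Ideal.mul_mem_left _ _ hnv)
  refine ⟨NGW.not_ram_of_discr KI p hp hpD v hv', ?_⟩
  have e : (QT.W ((eG d : 𝓞 KI) : KI)).baseChange (v.adicCompletion KI) =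
      (QT.W (algebraMap (𝓞 KI) (v.adicCompletionIntegers KI) (eG d))).map
        (algebraMap (v.adicCompletionIntegers KI) (v.adicCompletion KI)) := by
    rw [WeierstrassCurve.baseChange, QT.zw_map, QT.zw_map]
    rfl
  rw [e]
  refine NG3W.hasGoodReduction_of_unit _ _ _ ?_
  rw [QT.zw_Δ]
  refine (IsUnit.pow 6 ?_).mul (IsUnit.pow 3 ?_)
  · have h1 : (2 : v.adicCompletionIntegers KI) =
        algebraMap (𝓞 KI) (v.adicCompletionIntegers KI) ((2 : ℤ) : 𝓞 KI) := by
      rw [Int.cast_ofNat, map_ofNat]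
    rw [h1]
    apply CMT.isUnit_completion'
    apply hcop
    intro h
    exact hp2 ((Nat.prime_dvd_prime_iff_eq hp Nat.prime_two).1 (by exact_mod_cast h))
  · apply CMT.isUnit_completion'
    intro h
    refine hcop d.norm hpN ?_
    have h1 : ((d.norm : ℤ) : 𝓞 KI) = eG d * eG (star d) := by
      rw [← map_mul, ← Zsqrtd.norm_eq_mul_conj, map_intCast]
    rw [h1]
    exact Ideal.mul_mem_right _ _ h

end QT
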